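import Pool.Agent.V5helper19.ER.Stm2

/-!
# Project ER (MP_c6b05a_co), job KEY: the decomposition of the indicator function
-/

set_option autoImplicit false
open Finset

namespace Pool.Agent.V5helper95.ER

open V5helper19.ER

variable {n : ℕ}

theorem coe_mul' (x d : G n) (i : Fin n) :
    ((x * d : G n) : Equiv.Perm (Fin n)) i = (x : Equiv.Perm (Fin n)) ((d : Equiv.Perm (Fin n)) i) := by
  simp

/-- sums over the group, split by the value at `i` -/
theorem sum_split (i : Fin n) (f : G n → ℝ) : ∑ x, f x = ∑ j, ∑ x ∈ T i j, f x := by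
  unfold T
  exact (Finset.sum_fiberwise univ (fun x : G n => (x : Equiv.Perm (Fin n)) i) f).symm

theorem mem_T {i j : Fin n} {x : G n} : x ∈ T i j ↔ (x : Equiv.Perm (Fin n)) i = j := by
  unfold T
  simp

theorem van_orth {w : G n → ℝ} (hw : Van w) (i : Fin n) (g : Fin n → ℝ) :
    ∑ x, w x * g ((x : Equiv.Perm (Fin n)) i) = 0 := by
  rw [sum_split i]
  refine Finset.sum_eq_zero fun j _ => ?_
  have h1 : ∀ x ∈ T i j, w x * g ((x : Equiv.Perm (Fin n)) i) = w x * g j := by
    intro x hx
    rw [mem_T.1 hx]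
  rw [Finset.sum_congr rfl h1, ← Finset.sum_mul, hw i j, zero_mul]

theorem van_sum {w : G n → ℝ} (hw : Van w) (i : Fin n) : ∑ x, w x = 0 := by
  have h := van_orth hw i (fun _ => 1)
  simpa using h

section

variable (hn : 5 ≤ n) (hT : S_TR)

include hn

theorem n_pos : (0 : ℝ) < n := by
  have : (5 : ℝ) ≤ n := by exact_mod_cast hn
  linarith

theorem n1_pos : (0 : ℝ) < (n : ℝ) - 1 := by
  have : (5 : ℝ) ≤ n := by exact_mod_cast hn
  linarith

include hT

theorem card_T (i j : Fin n) : ((T i j).card : ℝ) = NN n / n := by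
  have h := (hT n hn).1 i j
  have h1 : (n : ℝ) * ((T i j).card : ℝ) = NN n := by
    unfold NN
    exact_mod_cast h
  rw [eq_div_iff (n_pos hn).ne']
  linarith

theorem card_TT {i j i' j' : Fin n} (hi : i ≠ i') (hj : j ≠ j') :
    ((T i j ∩ T i' j').card : ℝ) = NN n / (n * ((n : ℝ) - 1)) := by
  have h := (hT n hn).2.1 i j i' j' hi hj
  have h1 : (n : ℝ) * ((n : ℝ) - 1) * ((T i j ∩ T i' j').card : ℝ) = NN n := by
    unfold NN
    rw [← h]
    push_cast [Nat.cast_sub (show 1 ≤ n by omega)]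
    ring
  have h2 := n_pos hn
  have h3 := n1_pos hn
  rw [eq_div_iff (by positivity)]
  linarith

/-- sums of functions of one value -/
theorem sum_one (i : Fin n) (g : Fin n → ℝ) :
    ∑ x : G n, g ((x : Equiv.Perm (Fin n)) i) = NN n / n * ∑ j, g j := by
  rw [sum_split i, Finset.mul_sum]
  refine Finset.sum_congr rfl fun j _ => ?_
  have h1 : ∀ x ∈ T i j, g ((x : Equiv.Perm (Fin n)) i) = g j := by
    intro x hx
    rw [mem_T.1 hx]
  rw [Finset.sum_congr rfl h1, Finset.sum_const, nsmul_eq_mul, card_T hn hT]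

/-- sums over `T i j` of a function of another value -/
theorem sum_two {i i' : Fin n} (hi : i ≠ i') (j : Fin n) (g : Fin n → ℝ) :
    ∑ x ∈ T i j, g ((x : Equiv.Perm (Fin n)) i') =
      NN n / (n * ((n : ℝ) - 1)) * (∑ j', g j' - g j) := by
  have h1 : ∑ x ∈ T i j, g ((x : Equiv.Perm (Fin n)) i') =
      ∑ j', ∑ x ∈ (T i j).filter (fun x : G n => (x : Equiv.Perm (Fin n)) i' = j'),
        g ((x : Equiv.Perm (Fin n)) i') :=
    (Finset.sum_fiberwise (T i j) (fun x : G n => (x : Equiv.Perm (Fin n)) i')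
      (fun x => g ((x : Equiv.Perm (Fin n)) i'))).symm
  have h2 : ∀ j', ∑ x ∈ (T i j).filter (fun x : G n => (x : Equiv.Perm (Fin n)) i' = j'),
      g ((x : Equiv.Perm (Fin n)) i') =
      if j' = j then 0 else NN n / (n * ((n : ℝ) - 1)) * g j' := by
    intro j'
    have h3 : ∀ x ∈ (T i j).filter (fun x : G n => (x : Equiv.Perm (Fin n)) i' = j'),
        g ((x : Equiv.Perm (Fin n)) i') = g j' := by
      intro x hx
      rw [(Finset.mem_filter.1 hx).2]
    rw [Finset.sum_congr rfl h3, Finset.sum_const, nsmul_eq_mul]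
    split_ifs with h
    · have h4 : (T i j).filter (fun x : G n => (x : Equiv.Perm (Fin n)) i' = j') = ∅ := by
        refine Finset.filter_eq_empty_iff.2 fun {x} hx h5 => hi ?_
        rw [mem_T] at hx
        rw [h, ← hx] at h5
        exact ((x : Equiv.Perm (Fin n)).injective h5).symm
      rw [h4]
      simp
    · have h4 : (T i j).filter (fun x : G n => (x : Equiv.Perm (Fin n)) i' = j') =
          T i j ∩ T i' j' := by
        ext x
        simp [T]
      rw [h4, card_TT hn hT hi (Ne.symm h)]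
  rw [h1, Finset.sum_congr rfl fun j' _ => h2 j']
  rw [← Finset.add_sum_erase univ _ (Finset.mem_univ j), if_pos rfl, zero_add,
    Finset.sum_congr rfl fun j' hj' => if_neg (Finset.ne_of_mem_erase hj'), ← Finset.mul_sum]
  congr 1
  rw [← Finset.add_sum_erase univ g (Finset.mem_univ j)]
  ring

/-- the sum over `T i j` of a function of level one -/
theorem sum_T {b : Fin n → Fin n → ℝ} (hr : ∀ i, ∑ j, b i j = 0) (hc : ∀ j, ∑ i, b i j = 0)
    (i j : Fin n) :
    ∑ x ∈ T i j, ∑ i', b i' ((x : Equiv.Perm (Fin n)) i') = NN n / ((n : ℝ) - 1) * b i j := by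
  rw [Finset.sum_comm, ← Finset.add_sum_erase univ _ (Finset.mem_univ i)]
  have h1 : ∑ x ∈ T i j, b i ((x : Equiv.Perm (Fin n)) i) = NN n / n * b i j := by
    have h : ∀ x ∈ T i j, b i ((x : Equiv.Perm (Fin n)) i) = b i j := by
      intro x hx
      rw [mem_T.1 hx]
    rw [Finset.sum_congr rfl h, Finset.sum_const, nsmul_eq_mul, card_T hn hT]
  have h2 : ∀ i' ∈ univ.erase i, ∑ x ∈ T i j, b i' ((x : Equiv.Perm (Fin n)) i') =
      NN n / (n * ((n : ℝ) - 1)) * (- b i' j) := by
    intro i' hi'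
    rw [sum_two hn hT (Finset.ne_of_mem_erase hi').symm, hr i']
    ring
  rw [h1, Finset.sum_congr rfl h2, ← Finset.mul_sum]
  have h3 : ∑ i' ∈ univ.erase i, (- b i' j) = b i j := by
    have h4 := Finset.add_sum_erase univ (fun i' => b i' j) (Finset.mem_univ i)
    rw [hc j] at h4
    rw [Finset.sum_neg_distrib]
    linarith
  rw [h3]
  have h5 := (n_pos hn).ne'
  have h6 := (n1_pos hn).ne'
  field_simp
  ring

end

theorem ab_row (hn : 5 ≤ n) (S : Finset (G n)) (i : Fin n) : ∑ l, ab S i l = 0 := by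
  unfold ab aa cc
  rw [Finset.sum_sub_distrib, Finset.sum_const, Finset.card_univ, Fintype.card_fin, nsmul_eq_mul,
    ← Finset.sum_div, ← Finset.mul_sum]
  have h1 : ∑ l, ((S.filter fun x : G n => (x : Equiv.Perm (Fin n)) i = l).card : ℝ) = S.card := by
    have h := Finset.card_eq_sum_card_fiberwise (f := fun x : G n => (x : Equiv.Perm (Fin n)) i)
      (s := S) (t := univ) (fun x _ => Finset.mem_coe.2 (Finset.mem_univ _))
    rw [h]
    push_cast
    rfl
  rw [h1]
  have h5 := (n_pos hn).ne'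
  field_simp
  ring

theorem ab_col (hn : 5 ≤ n) (S : Finset (G n)) (l : Fin n) : ∑ i, ab S i l = 0 := by
  unfold ab aa cc
  rw [Finset.sum_sub_distrib, Finset.sum_const, Finset.card_univ, Fintype.card_fin, nsmul_eq_mul,
    ← Finset.sum_div, ← Finset.mul_sum]
  have h1 : ∑ i, ((S.filter fun x : G n => (x : Equiv.Perm (Fin n)) i = l).card : ℝ) = S.card := by
    have h2 : ∀ i, ((S.filter fun x : G n => (x : Equiv.Perm (Fin n)) i = l).card : ℝ) =
        ∑ x ∈ S, if (x : Equiv.Perm (Fin n)) i = l then (1 : ℝ) else 0 := by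
      intro i
      rw [Finset.sum_boole]
    rw [Finset.sum_congr rfl fun i _ => h2 i, Finset.sum_comm]
    have h3 : ∀ x ∈ S, ∑ i, (if (x : Equiv.Perm (Fin n)) i = l then (1 : ℝ) else 0) = 1 := by
      intro x _
      rw [Finset.sum_eq_single ((x : Equiv.Perm (Fin n)).symm l)]
      · rw [if_pos (Equiv.apply_symm_apply _ _)]
      · intro i _ hi
        rw [if_neg]
        intro h
        apply hi
        rw [← h, Equiv.symm_apply_apply]
      · intro h
        exact absurd (Finset.mem_univ _) h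
    rw [Finset.sum_congr rfl h3, Finset.sum_const, nsmul_eq_mul, mul_one]
  rw [h1]
  have h5 := (n_pos hn).ne'
  field_simp
  ring

theorem t_KEY (hT : S_TR) (hC : S_COR) : S_KEY := by
  intro n hn S
  have hn0 := n_pos hn
  have hn1 := n1_pos hn
  have hN : 0 < NN n := by
    unfold NN
    exact_mod_cast Fintype.card_pos
  set α : ℝ := S.card / NN n with hα
  set b : Fin n → Fin n → ℝ := fun i j => (((n : ℝ) - 1) / n) * ab S i j with hb
  have hrow := ab_row hn S
  have hcol := ab_col hn S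
  have hbr : ∀ i, ∑ j, b i j = 0 := fun i => by
    rw [hb, ← Finset.mul_sum, hrow i, mul_zero]
  have hbc : ∀ j, ∑ i, b i j = 0 := fun j => by
    rw [hb, ← Finset.mul_sum, hcol j, mul_zero]
  set f : G n → ℝ := fun x => if x ∈ S then 1 else 0 with hf
  set X : G n → ℝ := fun x => ∑ i, b i ((x : Equiv.Perm (Fin n)) i) with hX
  set w : G n → ℝ := f2 S with hw
  have hdec : ∀ x, f x = α + X x + w x := by
    intro x
    rw [hw, hX, hf, hb]
    unfold f2
    ring
  have hvan : Van w := by
    intro i j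
    have h1 : ∑ x ∈ T i j, f x = ((S.filter fun x : G n => (x : Equiv.Perm (Fin n)) i = j).card : ℝ) := by
      rw [hf, Finset.sum_boole]
      congr 2
      ext x
      simp [T, and_comm]
    have h2 : ∑ x ∈ T i j, w x = ∑ x ∈ T i j, f x - (α * (T i j).card + ∑ x ∈ T i j, X x) := by
      have h3 : ∀ x ∈ T i j, w x = f x - (α + X x) := fun x _ => by
        rw [hdec x]
        ring
      rw [Finset.sum_congr rfl h3, Finset.sum_sub_distrib, Finset.sum_add_distrib,
        Finset.sum_const, nsmul_eq_mul]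
      ring
    rw [h2, h1, card_T hn hT, sum_T hn hT hbr hbc, hb]
    simp only
    unfold ab aa cc
    rw [hα]
    field_simp
    ring
  have hXd : ∀ d : G n, ∑ x, X (x * d) = 0 := by
    intro d
    rw [hX]
    simp only
    rw [Finset.sum_comm]
    refine Finset.sum_eq_zero fun i _ => ?_
    have h := sum_one hn hT ((d : Equiv.Perm (Fin n)) i) (b i)
    rw [hbr i, mul_zero] at h
    rw [← h]
    refine Finset.sum_congr rfl fun x _ => ?_
    rw [coe_mul']
  have hX1 : ∑ x, X x = 0 := by
    have := hXd 1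
    simpa using this
  have hwX : ∀ d : G n, ∑ x, w x * X (x * d) = 0 := by
    intro d
    rw [hX]
    simp only
    simp_rw [Finset.mul_sum]
    rw [Finset.sum_comm]
    refine Finset.sum_eq_zero fun i _ => ?_
    rw [← van_orth hvan ((d : Equiv.Perm (Fin n)) i) (b i)]
    refine Finset.sum_congr rfl fun x _ => ?_
    rw [coe_mul']
  have hXw : ∀ d : G n, ∑ x, X x * w (x * d) = 0 := by
    intro d
    rw [← hwX d⁻¹]
    rw [← Equiv.sum_comp (Equiv.mulRight d) (fun x => w x * X (x * d⁻¹))]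
    refine Finset.sum_congr rfl fun x _ => ?_
    simp only [Equiv.coe_mulRight, mul_inv_cancel_right]
    ring
  have i0 : Fin n := ⟨0, by omega⟩
  have hw1 : ∑ x, w x = 0 := van_sum hvan i0
  have hwd : ∀ d : G n, ∑ x, w (x * d) = 0 := by
    intro d
    rw [← hw1]
    exact Equiv.sum_comp (Equiv.mulRight d) w
  have main : ∀ d : G n, ((S.filter fun x : G n => x * d ∈ S).card : ℝ) =
      (S.card : ℝ) ^ 2 / NN n + NN n * (((n : ℝ) - 1) / n ^ 2) *
        ∑ i, ∑ l, ab S ((d : Equiv.Perm (Fin n)) i) l * ab S i l + ∑ x, w x * w (x * d) := by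
    intro d
    have h1 : ((S.filter fun x : G n => x * d ∈ S).card : ℝ) = ∑ x, f x * f (x * d) := by
      have h6 : ∀ x, f x * f (x * d) = if x ∈ S ∧ x * d ∈ S then (1 : ℝ) else 0 := by
        intro x
        rw [hf]
        by_cases h7 : x ∈ S <;> by_cases h8 : x * d ∈ S <;> simp [h7, h8]
      rw [Finset.sum_congr rfl fun x _ => h6 x, Finset.sum_boole]
      congr 2
      ext x
      simp
    have h2 : ∑ x, f x * f (x * d) = ∑ x, (α * α + α * X (x * d) + α * w (x * d) + α * X x +
        X x * X (x * d) + X x * w (x * d) + α * w x + w x * X (x * d) + w x * w (x * d)) := by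
      refine Finset.sum_congr rfl fun x _ => ?_
      rw [hdec x, hdec (x * d)]
      ring
    have h3 : ∑ x, X x * X (x * d) = NN n / ((n : ℝ) - 1) *
        ∑ i, ∑ l, b ((d : Equiv.Perm (Fin n)) i) l * b i l := hC n hn b hbr hbc d
    rw [h1, h2]
    simp only [Finset.sum_add_distrib, ← Finset.mul_sum]
    rw [hXd, hwd, hX1, hXw, hw1, hwX, h3]
    have h4 : ∑ i, ∑ l, b ((d : Equiv.Perm (Fin n)) i) l * b i l =
        (((n : ℝ) - 1) / n) ^ 2 * ∑ i, ∑ l, ab S ((d : Equiv.Perm (Fin n)) i) l * ab S i l := by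
      simp_rw [Finset.mul_sum]
      refine Finset.sum_congr rfl fun i _ => Finset.sum_congr rfl fun l _ => ?_
      rw [hb]
      ring
    rw [h4]
    have h5 : α * ∑ x : G n, α = (S.card : ℝ) ^ 2 / NN n := by
      rw [Finset.sum_const, Finset.card_univ, nsmul_eq_mul, hα]
      change _ * (NN n * _) = _
      field_simp
    rw [h5]
    field_simp
    ring
  have h1 := main 1
  have h2 : (S.filter fun x : G n => x * 1 ∈ S) = S := by
    ext x
    simp
  rw [h2] at h1
  have h3 : ∑ i, ∑ l, ab S (((1 : G n) : Equiv.Perm (Fin n)) i) l * ab S i l =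
      ∑ i, ∑ l, ab S i l ^ 2 := by
    refine Finset.sum_congr rfl fun i _ => Finset.sum_congr rfl fun l _ => ?_
    have h9 : ((1 : G n) : Equiv.Perm (Fin n)) i = i := rfl
    rw [h9, pow_two]
  have h4 : ∑ x, w x * w (x * 1) = ∑ x, w x ^ 2 := by
    refine Finset.sum_congr rfl fun x _ => ?_
    rw [mul_one, pow_two]
  rw [h3, h4] at h1
  have h5 : 0 ≤ (S.card : ℝ) ^ 2 / NN n := div_nonneg (sq_nonneg _) hN.le
  have h6 : 0 ≤ NN n * (((n : ℝ) - 1) / n ^ 2) * ∑ i, ∑ l, ab S i l ^ 2 :=
    mul_nonneg (mul_nonneg hN.le (div_nonneg hn1.le (sq_nonneg _)))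
      (Finset.sum_nonneg fun i _ => Finset.sum_nonneg fun l _ => sq_nonneg _)
  have h7 : 0 ≤ ∑ x, w x ^ 2 := Finset.sum_nonneg fun x _ => sq_nonneg _
  exact ⟨hvan, by linarith, by linarith, hrow, hcol, main⟩

end Pool.Agent.V5helper95.ER
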